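import Pool.Agent.Lib.P1b5c59.Simple

set_option autoImplicit false

/-!
# A simple graph whose incidence groups have no complete rewriting system

The graph is simple, with 9 vertices `u, v, w, w', y₁, y₂, z₁, z₂, x` and 17 edges: `uw`, `vw`, `uv`,
`ux`, `vx`, and for `i = 1, 2` the edges `u yᵢ`, `yᵢ w`, `yᵢ w'`, `v zᵢ`, `zᵢ w`, `zᵢ w'`.

The edge `uv` and the path `u x v` make `Γ(G)` an amalgam `Γ' *_A (A × ℤ/2)` over the subgroup `A`
generated by the edges at `u` and at `v`, and `A` is, up to a finite kernel, a fibre product of two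
virtually free groups over the infinite dihedral group, which is not finitely presented.  So `Γ(G)`
is not of type `FP₃`, hence has no complete rewriting system (Anick, Squier).  The proof below is a
direct elementary version of this argument.
-/

namespace Pool.Agent.Results.MP_1b5c59_al.NoCompleteSystem

open Pool.Agent.Lib.P1b5c59

theorem inc_sq (G : MultiGraph) (e : G.E) :
    (PresentedGroup.of e : IncidenceGroup G) * PresentedGroup.of e = 1 := by
  have := PresentedGroup.one_of_mem (rels := {r | IncRel G r}) (IncRel.x_sq e)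
  rw [map_pow, pow_two] at this
  exact this

theorem inc_comm (G : MultiGraph) (v : G.V) (e e' : G.E) (h : v ∈ G.ends e) (h' : v ∈ G.ends e') :
    Commute (PresentedGroup.of e : IncidenceGroup G) (PresentedGroup.of e') := by
  have := PresentedGroup.one_of_mem (rels := {r | IncRel G r}) (IncRel.comm v e e' h h')
  simp only [map_mul, map_inv] at this
  rw [mul_inv_eq_one, mul_inv_eq_iff_eq_mul] at this
  exact this

theorem inc_vertex (G : MultiGraph) (v : G.V) (l : List G.E) (hl : l.Nodup)
    (hv : ∀ e, e ∈ l ↔ v ∈ G.ends e) :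
    (l.map fun e => (PresentedGroup.of e : IncidenceGroup G)).prod = 1 := by
  have := PresentedGroup.one_of_mem (rels := {r | IncRel G r}) (IncRel.vertex v l hl hv)
  rw [map_list_prod, List.map_map] at this
  exact this

theorem not_crs_inc : ¬ HasCompleteRewritingSystem (IncidenceGroup simpleGraph) := by
  have hrel : ∀ r ∈ {r | IncRel simpleGraph r},
      FreeGroup.lift (fun e : simpleGraph.E => ws e) r = 1 := by
    intro r hr
    cases hr with
    | x_sq e =>
      rw [map_pow, FreeGroup.lift_apply_of, pow_two]
      exact ws_sq e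
    | comm v e e' h h' =>
      simp only [map_mul, map_inv, FreeGroup.lift_apply_of]
      rw [(ws_comm v e e' h h').eq]
      group
    | vertex v l hl hv =>
      rw [map_list_prod, List.map_map]
      have : (⇑(FreeGroup.lift fun e : simpleGraph.E => ws e) ∘ FreeGroup.of) = ws := by
        funext e; exact FreeGroup.lift_apply_of
      rw [this]
      exact ws_prod v l hl hv
  refine no_crs_of_simple (fun e => (PresentedGroup.of (e : simpleGraph.E) :
      IncidenceGroup simpleGraph)) 1 1
    (fun e => Commute.one_left _) (fun e => Commute.one_left _) (inc_sq simpleGraph)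
    (inc_comm simpleGraph) ?_ ?_ (PresentedGroup.toGroup hrel) ?_
  · have := inc_vertex simpleGraph (4 : Fin 9) ([1, 3, 4] : List (Fin 17))
      (show ([1, 3, 4] : List (Fin 17)).Nodup by decide)
      (show ∀ e : Fin 17, e ∈ ([1, 3, 4] : List (Fin 17)) ↔ (4 : Fin 9) ∈ sEnds e by decide)
    change _ * (_ * (_ * 1)) = _ at this
    rw [mul_one, ← mul_assoc] at this
    exact this
  · have := inc_vertex simpleGraph (6 : Fin 9) ([8, 10, 11] : List (Fin 17))
      (show ([8, 10, 11] : List (Fin 17)).Nodup by decide)
      (show ∀ e : Fin 17, e ∈ ([8, 10, 11] : List (Fin 17)) ↔ (6 : Fin 9) ∈ sEnds e by decide)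
    change _ * (_ * (_ * 1)) = _ at this
    rw [mul_one, ← mul_assoc] at this
    exact this
  · intro e
    exact PresentedGroup.toGroup.of hrel

theorem col_sq (G : MultiGraph) (b : G.V → ZMod 2) (e : G.E) :
    (PresentedGroup.of (some e) : ColIncidenceGroup G b) * PresentedGroup.of (some e) = 1 := by
  have := PresentedGroup.one_of_mem (rels := {r | ColRel G b r}) (ColRel.x_sq e)
  rw [map_pow, pow_two] at this
  exact this

theorem col_comm (G : MultiGraph) (b : G.V → ZMod 2) (v : G.V) (e e' : G.E) (h : v ∈ G.ends e)
    (h' : v ∈ G.ends e') :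
    Commute (PresentedGroup.of (some e) : ColIncidenceGroup G b) (PresentedGroup.of (some e')) := by
  have := PresentedGroup.one_of_mem (rels := {r | ColRel G b r}) (ColRel.comm v e e' h h')
  simp only [map_mul, map_inv] at this
  rw [mul_inv_eq_one, mul_inv_eq_iff_eq_mul] at this
  exact this

theorem col_comm_J (G : MultiGraph) (b : G.V → ZMod 2) (e : G.E) :
    Commute (PresentedGroup.of none : ColIncidenceGroup G b) (PresentedGroup.of (some e)) := by
  have := PresentedGroup.one_of_mem (rels := {r | ColRel G b r}) (ColRel.comm_J e)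
  simp only [map_mul, map_inv] at this
  rw [mul_inv_eq_one, mul_inv_eq_iff_eq_mul] at this
  exact this.symm

theorem col_vertex (G : MultiGraph) (b : G.V → ZMod 2) (v : G.V) (l : List G.E) (hl : l.Nodup)
    (hv : ∀ e, e ∈ l ↔ v ∈ G.ends e) :
    (l.map fun e => (PresentedGroup.of (some e) : ColIncidenceGroup G b)).prod =
      (PresentedGroup.of none) ^ (b v).val := by
  have := PresentedGroup.one_of_mem (rels := {r | ColRel G b r}) (ColRel.vertex v l hl hv)
  rw [map_mul, map_list_prod, List.map_map, map_inv, map_pow, mul_inv_eq_one] at this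
  exact this

theorem not_crs_col (b : simpleGraph.V → ZMod 2) :
    ¬ HasCompleteRewritingSystem (ColIncidenceGroup simpleGraph b) := by
  set f : Option simpleGraph.E → W := fun o => o.elim 1 ws with hf
  have hrel : ∀ r ∈ {r | ColRel simpleGraph b r}, FreeGroup.lift f r = 1 := by
    intro r hr
    cases hr with
    | J_sq =>
      rw [map_pow, FreeGroup.lift_apply_of]
      exact one_pow 2
    | x_sq e =>
      rw [map_pow, FreeGroup.lift_apply_of, pow_two]
      exact ws_sq e
    | comm_J e =>
      simp only [map_mul, map_inv, FreeGroup.lift_apply_of]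
      change ws e * 1 * (ws e)⁻¹ * 1⁻¹ = 1
      group
    | comm v e e' h h' =>
      simp only [map_mul, map_inv, FreeGroup.lift_apply_of]
      change ws e * ws e' * (ws e)⁻¹ * (ws e')⁻¹ = 1
      rw [(ws_comm v e e' h h').eq]
      group
    | vertex v l hl hv =>
      rw [map_mul, map_list_prod, List.map_map, map_inv, map_pow, FreeGroup.lift_apply_of]
      have : (⇑(FreeGroup.lift f) ∘ fun e : simpleGraph.E => FreeGroup.of (some e)) = ws := by
        funext e; exact FreeGroup.lift_apply_of
      rw [this]
      change (l.map ws).prod * (1 ^ (b v).val)⁻¹ = 1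
      rw [one_pow, inv_one, mul_one]
      exact ws_prod v l hl hv
  refine no_crs_of_simple (fun e => (PresentedGroup.of (some (e : simpleGraph.E)) :
      ColIncidenceGroup simpleGraph b))
    ((PresentedGroup.of none) ^ (b (4 : Fin 9)).val) ((PresentedGroup.of none) ^ (b (6 : Fin 9)).val)
    (fun e => (col_comm_J simpleGraph b e).pow_left _) (fun e => (col_comm_J simpleGraph b e).pow_left _)
    (col_sq simpleGraph b) (col_comm simpleGraph b) ?_ ?_ (PresentedGroup.toGroup hrel) ?_
  · have := col_vertex simpleGraph b (4 : Fin 9) ([1, 3, 4] : List (Fin 17))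
      (show ([1, 3, 4] : List (Fin 17)).Nodup by decide)
      (show ∀ e : Fin 17, e ∈ ([1, 3, 4] : List (Fin 17)) ↔ (4 : Fin 9) ∈ sEnds e by decide)
    change _ * (_ * (_ * 1)) = _ at this
    rw [mul_one, ← mul_assoc] at this
    exact this
  · have := col_vertex simpleGraph b (6 : Fin 9) ([8, 10, 11] : List (Fin 17))
      (show ([8, 10, 11] : List (Fin 17)).Nodup by decide)
      (show ∀ e : Fin 17, e ∈ ([8, 10, 11] : List (Fin 17)) ↔ (6 : Fin 9) ∈ sEnds e by decide)
    change _ * (_ * (_ * 1)) = _ at this
    rw [mul_one, ← mul_assoc] at this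
    exact this
  · intro e
    exact PresentedGroup.toGroup.of hrel

/-- There is a simple graph `G` with 9 vertices and 17 edges such that neither `Γ(G)` nor any
`Γ(G, b)` has a complete rewriting system. -/
theorem result : ∃ G : MultiGraph, Function.Injective G.ends ∧
    Nat.card G.V = 9 ∧ Nat.card G.E = 17 ∧
    ¬ HasCompleteRewritingSystem (IncidenceGroup G) ∧
    ∀ b : G.V → ZMod 2, ¬ HasCompleteRewritingSystem (ColIncidenceGroup G b) :=
  ⟨simpleGraph, sEnds_injective, Nat.card_fin 9, Nat.card_fin 17, not_crs_inc, not_crs_col⟩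

end Pool.Agent.Results.MP_1b5c59_al.NoCompleteSystem
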